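import Pool.Agent.TH755.CL.Base

/-!
# Closure for `t` implies closure for `t (⌈n / 2⌉)`
-/

namespace Pool.Agent.TH755.CL

open Pool.Agent.NPC Pool.Agent.H639R2.NTP Pool.Agent.H660R2.NX

attribute [local irreducible] unpair

/-- the leading half of the census -/
def C1 (L : Set (List Bool)) (r : ℕ) : Set (List Bool) :=
  {y | valB y < cen L (2 * y.length - r) / 2 ^ y.length}

/-- the second half of the census -/
def C2 (L : Set (List Bool)) (r : ℕ) : Set (List Bool) :=
  {y | valB y < cen L (2 * y.length - r) % 2 ^ y.length}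

/-- the hypothesis on the growth of the time bound, in a convenient form -/
def Exp (T : ℕ → ℕ) : Prop := ∃ P : Polynomial ℕ, ∀ n, 2 ^ n ≤ P.eval (T n)

theorem half_eq {l r : ℕ} (hr : r ≤ 1) : (2 * l - r + 1) / 2 = l := by omega

/-- a polynomial bound for the certificates made of lists -/
theorem exists_bound (P p : Polynomial ℕ) : ∃ Q : Polynomial ℕ, ∀ l r t : ℕ, 2 ^ l ≤ P.eval t →
    2 ^ (2 * l - r) * (4 * (2 * l - r) + p.eval t + 3) + 1 ≤ Q.eval t := by
  refine ⟨P ^ 2 * (8 * P + p + 3) + 1, fun l r t h => ?_⟩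
  simp only [Polynomial.eval_add, Polynomial.eval_mul, Polynomial.eval_ofNat,
    Polynomial.eval_one, Polynomial.eval_pow]
  have h1 : 2 ^ (2 * l - r) ≤ P.eval t ^ 2 := by
    calc 2 ^ (2 * l - r) ≤ 2 ^ (l * 2) := Nat.pow_le_pow_right (by norm_num) (by omega)
      _ = (2 ^ l) ^ 2 := by rw [pow_mul]
      _ ≤ _ := Nat.pow_le_pow_left h 2
  have h2 : l ≤ P.eval t := (Nat.lt_two_pow_self).le.trans h
  refine Nat.add_le_add_right (Nat.mul_le_mul h1 ?_) 1
  omega

theorem exists_str {a l : ℕ} (h : a < 2 ^ l) : ∃ u : List Bool, u.length = l ∧ valB u = a := by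
  refine ⟨a.bits ++ List.replicate (l - a.bits.length) false, ?_, ?_⟩
  · have : a.bits.length ≤ l := by
      rw [Nat.size_eq_bits_len]
      exact Nat.size_le.2 h
    simp only [List.length_append, List.length_replicate]
    omega
  · rw [valB_append, valB_bits]
    have h0 : ∀ k, valB (List.replicate k false) = 0 := by
      intro k
      induction k with
      | zero => rfl
      | succ k ih => rw [List.replicate_succ, valB_cons, ih]; simp
    rw [h0]
    simp

theorem C1_mem {L : Set (List Bool)} {T : ℕ → ℕ} (hT : Exp T) {r : ℕ} (hr : r ≤ 1)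
    (hL : L ∈ NT fun n => T ((n + 1) / 2)) : C1 L r ∈ NT T := by
  obtain ⟨R, p, hR, hs, hc⟩ := exists_rel hL
  obtain ⟨P, hP⟩ := hT
  obtain ⟨Q, hQ⟩ := exists_bound P p
  refine mem_NT_typed (δ := List (List Bool × List Bool)) (R := fun y =>
    gl R (2 * y.1.length - r) y.2 && decide ((valB y.1 + 1) * 2 ^ y.1.length ≤ y.2.length))
    ?_ Q ?_ ?_
  · have := poly_gl (α := List Bool × List (List Bool × List Bool)) hR
      (n := fun y => 2 * y.1.length - r) (l := fun y => y.2) (by fun_prop) (by fun_prop)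
    fun_prop
  · intro y l h
    simp only [Bool.and_eq_true, decide_eq_true_eq] at h
    have h1 := gl_sound hs h.1
    have h2 : valB y + 1 ≤ cen L (2 * y.length - r) / 2 ^ y.length :=
      (Nat.le_div_iff_mul_le (by positivity)).2 (h.2.trans h1)
    exact h2
  · intro y hy
    have h2 : (valB y + 1) * 2 ^ y.length ≤ cen L (2 * y.length - r) :=
      (Nat.le_div_iff_mul_le (by positivity)).1 hy
    obtain ⟨l, h3, h4, -, h5⟩ := gl_complete (R := R) (L := L) (n := 2 * y.length - r)
      (B := p.eval (T y.length)) (fun w hw hwl => by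
        have := hc w hw
        rwa [hwl, half_eq hr] at this) h2
    refine ⟨l, h5.trans (hQ _ _ _ (hP _)), ?_⟩
    simp only [h3, h4, Bool.true_and, decide_eq_true_eq]
    exact le_refl _

theorem C2_mem {L : Set (List Bool)} {T : ℕ → ℕ} (hT : Exp T) {r : ℕ} (hr : r ≤ 1)
    (hL : L ∈ NT fun n => T ((n + 1) / 2)) (h1 : (C1 L r)ᶜ ∈ NT T) : C2 L r ∈ NT T := by
  obtain ⟨R, p, hR, hs, hc⟩ := exists_rel hL
  obtain ⟨N, q, hN, hNs, hNc⟩ := exists_rel h1
  obtain ⟨P, hP⟩ := hT
  obtain ⟨Q, hQ⟩ := exists_bound P p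
  refine mem_NT_typed (δ := (List Bool × List Bool) × List (List Bool × List Bool))
    (R := fun y =>
      (decide (y.2.1.1.length = y.1.length) && N (y.2.1.1, y.2.1.2)) &&
      (gl R (2 * y.1.length - r) y.2.2 &&
        decide (valB y.2.1.1 * 2 ^ y.1.length + (valB y.1 + 1) ≤ y.2.2.length)))
    ?_ (Q + q + 4 * P + 3) ?_ ?_
  · have h2 := poly_gl (α := List Bool × ((List Bool × List Bool) × List (List Bool × List Bool)))
      hR (n := fun y => 2 * y.1.length - r) (l := fun y => y.2.2) (by fun_prop) (by fun_prop)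
    have h3 := hN.comp (f := fun y : List Bool × ((List Bool × List Bool) ×
      List (List Bool × List Bool)) => (y.2.1.1, y.2.1.2)) (by fun_prop)
    fun_prop
  · rintro y ⟨⟨u, c⟩, l⟩ h
    simp only [Bool.and_eq_true, decide_eq_true_eq] at h
    obtain ⟨⟨h2, h3⟩, h4, h5⟩ := h
    have h6 := gl_sound hs h4
    have h7 : cen L (2 * y.length - r) / 2 ^ y.length ≤ valB u := by
      have := hNs _ _ h3
      simp only [C1, Set.mem_compl_iff, Set.mem_ofPred_eq, not_lt, h2] at this
      exact this
    have h8 := Nat.div_add_mod (cen L (2 * y.length - r)) (2 ^ y.length)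
    have h9 : 2 ^ y.length * (cen L (2 * y.length - r) / 2 ^ y.length) ≤
        valB u * 2 ^ y.length := by
      rw [mul_comm (valB u)]
      exact Nat.mul_le_mul_left _ h7
    show valB y < cen L (2 * y.length - r) % 2 ^ y.length
    omega
  · intro y hy
    have hy' : valB y < cen L (2 * y.length - r) % 2 ^ y.length := hy
    set n := 2 * y.length - r with hn
    set a := cen L n / 2 ^ y.length with ha
    have hcen : cen L n ≤ 2 ^ (2 * y.length) :=
      (cen_le L n).trans (Nat.pow_le_pow_right (by norm_num) (by omega))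
    have h8 := Nat.div_add_mod (cen L n) (2 ^ y.length)
    have ha2 : a < 2 ^ y.length := by
      rw [ha, Nat.div_lt_iff_lt_mul (by positivity)]
      rcases hcen.lt_or_eq with h | h
      · rwa [← pow_add, ← two_mul]
      · exfalso
        rw [h, two_mul, pow_add, Nat.mul_mod_right] at hy'
        omega
    obtain ⟨u, hu1, hu2⟩ := exists_str ha2
    have hu3 : u ∈ (C1 L r)ᶜ := by
      simp only [C1, Set.mem_compl_iff, Set.mem_ofPred_eq, not_lt, hu1, hu2]
      exact le_refl _
    obtain ⟨c, hc1, hc2⟩ := hNc u hu3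
    have hk : a * 2 ^ y.length + (valB y + 1) ≤ cen L n := by
      have e1 : a * 2 ^ y.length = 2 ^ y.length * (cen L n / 2 ^ y.length) := by
        rw [ha, mul_comm]
      omega
    obtain ⟨l, h3, h4, -, h5⟩ := gl_complete (R := R) (L := L) (n := n)
      (B := p.eval (T y.length)) (fun w hw hwl => by
        have := hc w hw
        rwa [hwl, hn, half_eq hr] at this) hk
    refine ⟨((u, c), l), ?_, ?_⟩
    · have h6 := h5.trans (hQ _ _ _ (hP y.length))
      have h7 := sz_listBool_le u
      have h9 : y.length ≤ P.eval (T y.length) := (Nat.lt_two_pow_self).le.trans (hP _)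
      rw [hu1] at hc1 h7
      simp only [sz_pair, Polynomial.eval_add, Polynomial.eval_mul, Polynomial.eval_ofNat]
      omega
    · simp only [Bool.and_eq_true, decide_eq_true_eq]
      exact ⟨⟨hu1, hc2⟩, h3, by rw [hu2, h4]⟩

/-- the verifier for the complement -/
def RF (R N0 N1 M0 M1 : List Bool × List Bool → Bool) (y : List Bool ×
    ((List Bool × List Bool) × (List Bool × List Bool) × List (List Bool × List Bool))) : Bool :=
  ((decide (y.2.1.1.length = (y.1.length + 1) / 2) &&
    decide (y.2.2.1.1.length = (y.1.length + 1) / 2)) &&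
  (bif decide (y.1.length % 2 = 0) then N0 y.2.1 && M0 y.2.2.1 else N1 y.2.1 && M1 y.2.2.1)) &&
  ((gl R y.1.length y.2.2.2 && !decide (y.1 ∈ y.2.2.2.map Prod.fst)) &&
  decide (valB y.2.1.1 * 2 ^ y.2.1.1.length + valB y.2.2.1.1 ≤ y.2.2.2.length))

theorem poly_RF {R N0 N1 M0 M1 : List Bool × List Bool → Bool} (hR : Poly R) (hN0 : Poly N0)
    (hN1 : Poly N1) (hM0 : Poly M0) (hM1 : Poly M1) : Poly (RF R N0 N1 M0 M1) := by
  unfold RF
  have h1 := poly_gl (α := List Bool ×
    ((List Bool × List Bool) × (List Bool × List Bool) × List (List Bool × List Bool)))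
      hR (n := fun y => y.1.length) (l := fun y => y.2.2.2) (by fun_prop) (by fun_prop)
  have h2 := hN0.comp (f := fun y : List Bool ×
    ((List Bool × List Bool) × (List Bool × List Bool) × List (List Bool × List Bool)) => y.2.1)
    (by fun_prop)
  have h3 := hN1.comp (f := fun y : List Bool ×
    ((List Bool × List Bool) × (List Bool × List Bool) × List (List Bool × List Bool)) => y.2.1)
    (by fun_prop)
  have h4 := hM0.comp (f := fun y : List Bool ×
    ((List Bool × List Bool) × (List Bool × List Bool) × List (List Bool × List Bool)) => y.2.2.1)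
    (by fun_prop)
  have h5 := hM1.comp (f := fun y : List Bool ×
    ((List Bool × List Bool) × (List Bool × List Bool) × List (List Bool × List Bool)) => y.2.2.1)
    (by fun_prop)
  fun_prop

theorem halve {T : ℕ → ℕ} (hT : Exp T) (hcl : Closed T) : Closed fun n => T ((n + 1) / 2) := by
  intro L hL
  have a0 := hcl _ (C1_mem hT (r := 0) (by norm_num) hL)
  have a1 := hcl _ (C1_mem hT (r := 1) (by norm_num) hL)
  have b0 := hcl _ (C2_mem hT (r := 0) (by norm_num) hL a0)
  have b1 := hcl _ (C2_mem hT (r := 1) (by norm_num) hL a1)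
  obtain ⟨R, p, hR, hs, hc⟩ := exists_rel hL
  obtain ⟨N0, q0, hN0, hN0s, hN0c⟩ := exists_rel a0
  obtain ⟨N1, q1, hN1, hN1s, hN1c⟩ := exists_rel a1
  obtain ⟨M0, w0, hM0, hM0s, hM0c⟩ := exists_rel b0
  obtain ⟨M1, w1, hM1, hM1s, hM1c⟩ := exists_rel b1
  obtain ⟨P, hP⟩ := hT
  obtain ⟨Q, hQ⟩ := exists_bound P p
  refine mem_NT_typed (poly_RF hR hN0 hN1 hM0 hM1) (Q + q0 + q1 + w0 + w1 + 8 * P + 8) ?_ ?_
  · rintro x ⟨⟨u, c⟩, ⟨v, d⟩, l⟩ h hx
    unfold RF at h
    simp only [Bool.and_eq_true, decide_eq_true_eq, Bool.not_eq_true', decide_eq_false_iff_not]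
      at h
    obtain ⟨⟨⟨h1, h2⟩, h3⟩, ⟨h4, h5⟩, h6⟩ := h
    have h7 := gl_sound' hs h4 hx rfl h5
    have key : cen L x.length / 2 ^ u.length ≤ valB u ∧
        cen L x.length % 2 ^ u.length ≤ valB v := by
      rcases Nat.mod_two_eq_zero_or_one x.length with h8 | h8
      · simp only [h8, decide_true, cond_true, Bool.and_eq_true] at h3
        have e1 := hN0s _ _ h3.1
        have e2 := hM0s _ _ h3.2
        simp only [C1, C2, Set.mem_compl_iff, Set.mem_ofPred_eq, not_lt, h1, h2] at e1 e2
        have e3 : 2 * ((x.length + 1) / 2) - 0 = x.length := by omega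
        rw [e3] at e1 e2
        rw [h1]
        exact ⟨e1, e2⟩
      · simp only [h8, one_ne_zero, decide_false, cond_false, Bool.and_eq_true] at h3
        have e1 := hN1s _ _ h3.1
        have e2 := hM1s _ _ h3.2
        simp only [C1, C2, Set.mem_compl_iff, Set.mem_ofPred_eq, not_lt, h1, h2] at e1 e2
        have e3 : 2 * ((x.length + 1) / 2) - 1 = x.length := by omega
        rw [e3] at e1 e2
        rw [h1]
        exact ⟨e1, e2⟩
    have h8 := Nat.div_add_mod (cen L x.length) (2 ^ u.length)
    have h9 : 2 ^ u.length * (cen L x.length / 2 ^ u.length) ≤ valB u * 2 ^ u.length := by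
      rw [mul_comm (valB u)]
      exact Nat.mul_le_mul_left _ key.1
    have h10 := key.2
    omega
  · intro x hx
    set ℓ := (x.length + 1) / 2 with hℓ
    set a := cen L x.length / 2 ^ ℓ with ha
    -- the census is not the number of all words
    have hcen : cen L x.length < 2 ^ (2 * ℓ) := by
      have h1 : cen L x.length < 2 ^ x.length := by
        have h2 : cen L x.length < Set.ncard {y : List Bool | y.length = x.length} := by
          refine Set.ncard_lt_ncard ⟨fun _ hy => hy.2, fun h => ?_⟩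
            (List.finite_length_eq Bool x.length)
          exact hx (h (a := x) rfl).1
        have h3 : Set.ncard {y : List Bool | y.length = x.length} =
          Nat.card (List.Vector Bool x.length) := rfl
        rwa [h3, Nat.card_eq_fintype_card, card_vector, Fintype.card_bool] at h2
      exact h1.trans_le (Nat.pow_le_pow_right (by norm_num) (by omega))
    have ha2 : a < 2 ^ ℓ := by
      rw [ha, Nat.div_lt_iff_lt_mul (by positivity), ← pow_add, ← two_mul]
      exact hcen
    obtain ⟨u, hu1, hu2⟩ := exists_str ha2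
    obtain ⟨v, hv1, hv2⟩ := exists_str (Nat.mod_lt (cen L x.length) (by positivity : 0 < 2 ^ ℓ))
    have h8 := Nat.div_add_mod (cen L x.length) (2 ^ ℓ)
    obtain ⟨l, h3, h4, h6, h5⟩ := gl_complete (R := R) (L := L) (n := x.length)
      (B := p.eval (T ℓ)) (fun w hw hwl => by
        have := hc w hw
        rwa [hwl] at this) (le_refl _)
    have hxl : x ∉ l.map Prod.fst := by
      intro h
      rw [List.mem_map] at h
      obtain ⟨z, hz, rfl⟩ := h
      exact hx (h6 z hz)
    have hcd : ∃ c d : List Bool, sz c ≤ q0.eval (T ℓ) + q1.eval (T ℓ) ∧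
        sz d ≤ w0.eval (T ℓ) + w1.eval (T ℓ) ∧
        (bif decide (x.length % 2 = 0) then N0 (u, c) && M0 (v, d) else N1 (u, c) && M1 (v, d)) =
          true := by
      rcases Nat.mod_two_eq_zero_or_one x.length with h9 | h9
      · have e3 : 2 * ℓ - 0 = x.length := by omega
        obtain ⟨c, hc1, hc2⟩ := hN0c u (by
          simp only [C1, Set.mem_compl_iff, Set.mem_ofPred_eq, not_lt, hu1, hu2, e3]
          exact le_refl _)
        obtain ⟨d, hd1, hd2⟩ := hM0c v (by
          simp only [C2, Set.mem_compl_iff, Set.mem_ofPred_eq, not_lt, hv1, hv2, e3]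
          exact le_refl _)
        rw [hu1] at hc1
        rw [hv1] at hd1
        refine ⟨c, d, by omega, by omega, ?_⟩
        simp [h9, hc2, hd2]
      · have e3 : 2 * ℓ - 1 = x.length := by omega
        obtain ⟨c, hc1, hc2⟩ := hN1c u (by
          simp only [C1, Set.mem_compl_iff, Set.mem_ofPred_eq, not_lt, hu1, hu2, e3]
          exact le_refl _)
        obtain ⟨d, hd1, hd2⟩ := hM1c v (by
          simp only [C2, Set.mem_compl_iff, Set.mem_ofPred_eq, not_lt, hv1, hv2, e3]
          exact le_refl _)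
        rw [hu1] at hc1
        rw [hv1] at hd1
        refine ⟨c, d, by omega, by omega, ?_⟩
        simp [h9, hc2, hd2]
    obtain ⟨c, d, hc1, hd1, hcd2⟩ := hcd
    refine ⟨((u, c), (v, d), l), ?_, ?_⟩
    · have e1 : x.length = 2 * ℓ - x.length % 2 := by omega
      have e2 := hQ ℓ (x.length % 2) (T ℓ) (hP ℓ)
      rw [← e1] at e2
      have e3 := sz_listBool_le u
      have e4 := sz_listBool_le v
      have e5 : ℓ ≤ P.eval (T ℓ) := (Nat.lt_two_pow_self).le.trans (hP ℓ)
      have e6 := h5.trans e2
      simp only [sz_pair, Polynomial.eval_add, Polynomial.eval_mul, Polynomial.eval_ofNat]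
      omega
    · unfold RF
      simp only [Bool.and_eq_true, decide_eq_true_eq, Bool.not_eq_true', decide_eq_false_iff_not]
      refine ⟨⟨⟨hu1, hv1⟩, hcd2⟩, ⟨h3, hxl⟩, ?_⟩
      rw [hu2, hv2, hu1, h4, mul_comm]
      exact h8.le

end Pool.Agent.TH755.CL
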