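import Pool.Agent.H639R2.NTP.Basic
import Pool.Agent.H671R2.PolyAuto

/-!
# Tools: typed certificates, lists of members, powers of two
-/

namespace Pool.Agent.TH755.CL

open Pool.Agent.NPC Pool.Agent.H639R2.NTP Pool.Agent.H660R2.NX

attribute [local irreducible] unpair

/-- `NTIME(Pol t)` is closed under complementation. -/
def Closed (t : ℕ → ℕ) : Prop := ∀ L ∈ NT t, Lᶜ ∈ NT t

theorem mem_NT_typed {δ : Type} [TEnc δ] [TDec δ] {L : Set (List Bool)} {t : ℕ → ℕ}
    {R : List Bool × δ → Bool} (hR : Poly R) (p : Polynomial ℕ)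
    (hs : ∀ w d, R (w, d) = true → w ∈ L)
    (hc : ∀ w ∈ L, ∃ d : δ, sz d ≤ p.eval (t w.length) ∧ R (w, d) = true) : L ∈ NT t := by
  refine mem_NT_of_poly (R := fun y => (unbits δ y.2).elim false fun d => R (y.1, d)) ?_ p ?_ ?_
  · exact Poly.optElim (h := fun (y : List Bool × List Bool) d => R (y.1, d))
      (poly_unbits.comp (NPC.Poly.snd NPC.Poly.id)) (NPC.Poly.const _) (hR.comp (by fun_prop))
  · intro w c h
    cases hd : unbits δ c with
    | none => simp [hd] at h
    | some d =>
      simp only [hd, Option.elim_some] at h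
      exact hs w d h
  · intro w hw
    obtain ⟨d, h1, h2⟩ := hc w hw
    exact ⟨bits d, by rw [bits_length]; exact h1, by simp [unbits_bits, h2]⟩

theorem exists_rel {L : Set (List Bool)} {t : ℕ → ℕ} (hL : L ∈ NT t) :
    ∃ (R : List Bool × List Bool → Bool) (p : Polynomial ℕ), Poly R ∧
      (∀ w c, R (w, c) = true → w ∈ L) ∧
      ∀ w ∈ L, ∃ c : List Bool, sz c ≤ p.eval (t w.length) ∧ R (w, c) = true := by
  obtain ⟨V, p, hV, hs, hc⟩ := hL
  have hV' : Poly V := poly_of_polyTime hV
  refine ⟨fun y => decide (V (pairBits y.1 y.2) = [true]), 4 * p + 1, ?_, fun w c h => ?_,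
    fun w hw => ?_⟩
  · exact Poly.dec_eq (hV'.comp (by fun_prop)) (by fun_prop)
  · exact hs w c (by simpa using h)
  · obtain ⟨c, h1, h2⟩ := hc w hw
    refine ⟨c, ?_, by simpa using h2⟩
    have h3 := sz_listBool_le c
    simp only [Polynomial.eval_add, Polynomial.eval_mul, Polynomial.eval_ofNat,
      Polynomial.eval_one]
    omega

/-- powers of two -/
theorem poly_pow2 {α : Type} [TEnc α] {n : α → ℕ} (hn : UPoly n) : Poly (fun a => 2 ^ n a) := by
  have h1 : Poly (fun a => List.replicate (n a) false) :=
    (NPC.Poly.map (F := fun _ _ => false) hn (NPC.Poly.const false)).congr fun a => by simp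
  exact (NPC.Poly.valBits (NPC.Poly.append h1 (NPC.Poly.const [true]))).congr fun a => by
    rw [valB_replicate_false]
    simp

@[fun_prop]
theorem poly_valB {α : Type} [TEnc α] {l : α → List Bool} (hl : Poly l) :
    Poly (fun a => valB (l a)) := NPC.Poly.valBits hl

@[fun_prop]
theorem poly_pow2_length {α β : Type} [TEnc α] [TEnc β] {l : α → List β} (hl : Poly l) :
    Poly (fun a => 2 ^ (l a).length) := poly_pow2 (UPoly.length hl)

/-- no repetitions -/
def nod {β : Type} [DecidableEq β] (l : List β) : Bool :=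
  l.zipIdx.all fun a => l.zipIdx.all fun b => (!decide (a.1 = b.1)) || decide (a.2 = b.2)

theorem nod_iff {β : Type} [DecidableEq β] (l : List β) : nod l = true ↔ l.Nodup := by
  unfold nod
  simp only [List.all_eq_true, Bool.or_eq_true, Bool.not_eq_true', decide_eq_false_iff_not,
    decide_eq_true_eq]
  rw [List.nodup_iff_getElem?_ne_getElem?]
  constructor
  · intro h i j hij hj he
    have hi : i < l.length := hij.trans hj
    have h1 : (l[i], i) ∈ l.zipIdx := by
      rw [List.mem_zipIdx_iff_getElem?]; simp [hi]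
    have h2 : (l[j], j) ∈ l.zipIdx := by
      rw [List.mem_zipIdx_iff_getElem?]; simp [hj]
    rcases h _ h1 _ h2 with h3 | h3
    · apply h3
      simpa [hi, hj] using he
    · simp only at h3
      omega
  · rintro h ⟨x, i⟩ h1 ⟨y, j⟩ h2
    rw [List.mem_zipIdx_iff_getElem?] at h1 h2
    by_cases hxy : x = y
    · right
      subst hxy
      have hi : i < l.length := (List.getElem?_eq_some_iff.1 h1).1
      have hj : j < l.length := (List.getElem?_eq_some_iff.1 h2).1
      simp only at h1 h2 ⊢
      rcases Nat.lt_trichotomy i j with h3 | h3 | h3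
      · exact absurd (h1.trans h2.symm) (h i j h3 hj)
      · exact h3
      · exact absurd (h2.trans h1.symm) (h j i h3 hi)
    · left; exact hxy

@[fun_prop]
theorem poly_nod {α β : Type} [TEnc α] [TEnc β] [DecidableEq β] {l : α → List β} (hl : Poly l) :
    Poly (fun a => nod (l a)) := by
  unfold nod
  fun_prop

/-- the number of words of length `n` in `L` -/
noncomputable def cen (L : Set (List Bool)) (n : ℕ) : ℕ :=
  Set.ncard {x : List Bool | x ∈ L ∧ x.length = n}

theorem finite_len (L : Set (List Bool)) (n : ℕ) :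
    {x : List Bool | x ∈ L ∧ x.length = n}.Finite :=
  (List.finite_length_eq Bool n).subset fun _ hx => hx.2

theorem cen_le (L : Set (List Bool)) (n : ℕ) : cen L n ≤ 2 ^ n := by
  have h1 : cen L n ≤ Set.ncard {x : List Bool | x.length = n} :=
    Set.ncard_le_ncard (fun _ hx => hx.2) (List.finite_length_eq Bool n)
  refine h1.trans (le_of_eq ?_)
  have h2 : Set.ncard {x : List Bool | x.length = n} = Nat.card (List.Vector Bool n) := rfl
  rw [h2, Nat.card_eq_fintype_card, card_vector, Fintype.card_bool]

/-- a list of distinct words of length `n` with certificates -/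
def gl (R : List Bool × List Bool → Bool) (n : ℕ) (l : List (List Bool × List Bool)) : Bool :=
  (l.all fun z => R z && decide (z.1.length = n)) && nod (l.map Prod.fst)

theorem poly_gl {α : Type} [TEnc α] {R : List Bool × List Bool → Bool} (hR : Poly R) {n : α → ℕ}
    {l : α → List (List Bool × List Bool)} (hn : Poly n) (hl : Poly l) :
    Poly (fun a => gl R (n a) (l a)) := by
  unfold gl
  have h : Poly (fun p : α × (List Bool × List Bool) =>
      R p.2 && decide (p.2.1.length = n p.1)) := by
    have := hR.comp (f := fun p : α × (List Bool × List Bool) => p.2) (by fun_prop)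
    fun_prop
  fun_prop

theorem gl_sound {R : List Bool × List Bool → Bool} {L : Set (List Bool)}
    (hs : ∀ w c, R (w, c) = true → w ∈ L) {n : ℕ} {l : List (List Bool × List Bool)}
    (h : gl R n l = true) : l.length ≤ cen L n := by
  unfold gl at h
  rw [Bool.and_eq_true, nod_iff, List.all_eq_true] at h
  have h1 : ((l.map Prod.fst).toFinset : Set (List Bool)) ⊆ {x | x ∈ L ∧ x.length = n} := by
    intro x hx
    simp only [List.coe_toFinset, List.mem_map] at hx
    obtain ⟨z, hz, rfl⟩ := hx
    have := h.1 z hz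
    rw [Bool.and_eq_true, decide_eq_true_eq] at this
    exact ⟨hs _ _ this.1, this.2⟩
  have h2 := Set.ncard_le_ncard h1 (finite_len L n)
  rw [Set.ncard_coe_finset, List.toFinset_card_of_nodup h.2, List.length_map] at h2
  exact h2

theorem gl_sound' {R : List Bool × List Bool → Bool} {L : Set (List Bool)}
    (hs : ∀ w c, R (w, c) = true → w ∈ L) {n : ℕ} {l : List (List Bool × List Bool)}
    (h : gl R n l = true) {x : List Bool} (hx : x ∈ L) (hxn : x.length = n)
    (hxl : x ∉ l.map Prod.fst) : l.length + 1 ≤ cen L n := by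
  unfold gl at h
  rw [Bool.and_eq_true, nod_iff, List.all_eq_true] at h
  have h1 : ((x :: l.map Prod.fst).toFinset : Set (List Bool)) ⊆ {x | x ∈ L ∧ x.length = n} := by
    intro y hy
    simp only [List.coe_toFinset, List.mem_cons, List.mem_map] at hy
    rcases hy with rfl | ⟨z, hz, rfl⟩
    · exact ⟨hx, hxn⟩
    · have := h.1 z hz
      rw [Bool.and_eq_true, decide_eq_true_eq] at this
      exact ⟨hs _ _ this.1, this.2⟩
  have h2 := Set.ncard_le_ncard h1 (finite_len L n)
  rw [Set.ncard_coe_finset, List.toFinset_card_of_nodup (List.nodup_cons.2 ⟨hxl, h.2⟩),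
    List.length_cons, List.length_map] at h2
  exact h2

theorem gl_complete {R : List Bool × List Bool → Bool} {L : Set (List Bool)} {n B : ℕ}
    (hc : ∀ w ∈ L, w.length = n → ∃ c : List Bool, sz c ≤ B ∧ R (w, c) = true) {k : ℕ}
    (hk : k ≤ cen L n) : ∃ l : List (List Bool × List Bool), gl R n l = true ∧ l.length = k ∧
      (∀ z ∈ l, z.1 ∈ L) ∧ sz l ≤ 2 ^ n * (4 * n + B + 3) + 1 := by
  classical
  have hfin := finite_len L n
  have hk' : k ≤ hfin.toFinset.card := by
    rwa [← Set.ncard_eq_toFinset_card _ hfin]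
  obtain ⟨F, hF, hFk⟩ := Finset.exists_subset_card_eq hk'
  choose! c hc1 hc2 using hc
  have hmem : ∀ x ∈ F, x ∈ L ∧ x.length = n := fun x hx => by
    have := hF hx
    rwa [Set.Finite.mem_toFinset] at this
  refine ⟨F.toList.map fun x => (x, c x), ?_, by simp [hFk], ?_, ?_⟩
  · unfold gl
    rw [Bool.and_eq_true, nod_iff, List.all_eq_true]
    constructor
    · intro z hz
      rw [List.mem_map] at hz
      obtain ⟨x, hx, rfl⟩ := hz
      have hx' := hmem x (Finset.mem_toList.1 hx)
      rw [Bool.and_eq_true, decide_eq_true_eq]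
      exact ⟨hc2 x hx'.1 hx'.2, hx'.2⟩
    · rw [List.map_map]
      have : (Prod.fst ∘ fun x => (x, c x)) = fun x : List Bool => x := rfl
      rw [this, List.map_id']
      exact F.nodup_toList
  · intro z hz
    rw [List.mem_map] at hz
    obtain ⟨x, hx, rfl⟩ := hz
    exact (hmem x (Finset.mem_toList.1 hx)).1
  · have h1 := sz_le_length_mul (F.toList.map fun x => (x, c x)) (4 * n + B + 2) (fun z hz => by
      rw [List.mem_map] at hz
      obtain ⟨x, hx, rfl⟩ := hz
      have hx' := hmem x (Finset.mem_toList.1 hx)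
      have h2 := hc1 x hx'.1 hx'.2
      have h3 := sz_listBool_le x
      rw [sz_pair]
      rw [hx'.2] at h3
      omega)
    rw [List.length_map, Finset.length_toList, hFk] at h1
    have h2 : k ≤ 2 ^ n := hk.trans (cen_le L n)
    have h3 : k * (4 * n + B + 2 + 1) ≤ 2 ^ n * (4 * n + B + 2 + 1) :=
      Nat.mul_le_mul_right _ h2
    exact h1.trans (Nat.add_le_add_right h3 1)

end Pool.Agent.TH755.CL
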