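import Pool.Agent.TH755.CL.Halve

/-!
# Lifting of closure along `h` with `n ≤ s h(n)`
-/

namespace Pool.Agent.TH755.CL

open Pool.Agent.NPC Pool.Agent.H639R2.NTP Pool.Agent.H660R2.NX

attribute [local irreducible] unpair

/-- The function `h` is computable in nondeterministic time `Pol t`, on inputs in unary: some
verifier `V`, computable in polynomial time, accepts only true equations `m = h n`, where `n` and
`m` are written in unary, and the equation `h n = h n` has a certificate of length polynomial in
`t n`. -/
def NComp (h t : ℕ → ℕ) : Prop :=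
  ∃ (V : List Bool → List Bool) (p : Polynomial ℕ), PolyTime V ∧
    (∀ n m c, V (pairBits (pairBits (List.replicate n true) (List.replicate m true)) c) = [true] →
      m = h n) ∧
    ∀ n, ∃ c : List Bool, c.length ≤ p.eval (t n) ∧
      V (pairBits (pairBits (List.replicate n true) (List.replicate (h n) true)) c) = [true]

/-- `x` padded to length `m`, where `|x| < m` or `x = []`, `m = 0` -/
def pad (m : ℕ) (x : List Bool) : List Bool :=
  if m = 0 then [] else x ++ true :: List.replicate (m - x.length - 1) false

theorem length_pad {m : ℕ} {x : List Bool} (h : m = 0 ∨ x.length + 1 ≤ m) :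
    (pad m x).length = m := by
  unfold pad
  split_ifs with h0
  · simp [h0]
  · simp only [List.length_append, List.length_cons, List.length_replicate]
    omega

theorem pad_inj {m : ℕ} {x y : List Bool} (hm : m ≠ 0) (hx : x.length + 1 ≤ m)
    (hy : y.length + 1 ≤ m) (h : pad m x = pad m y) : x = y := by
  unfold pad at h
  rw [if_neg hm, if_neg hm] at h
  have h1 := congrArg List.reverse h
  simp only [List.reverse_append, List.reverse_cons, List.reverse_replicate, List.append_assoc,
    List.singleton_append] at h1
  have key : ∀ (a b : ℕ) (u v : List Bool),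
      List.replicate a false ++ true :: u = List.replicate b false ++ true :: v → a = b := by
    intro a
    induction a with
    | zero =>
      intro b u v h
      cases b with
      | zero => rfl
      | succ b => simp [List.replicate_succ] at h
    | succ a ih =>
      intro b u v h
      cases b with
      | zero => simp [List.replicate_succ] at h
      | succ b =>
        simp only [List.replicate_succ, List.cons_append, List.cons.injEq, true_and] at h
        rw [ih b u v h]
  have h2 := key _ _ _ _ h1
  rw [h2] at h1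
  have h3 := List.append_cancel_left h1
  simp only [List.cons.injEq, true_and] at h3
  exact List.reverse_injective h3

theorem poly_pad {α : Type} [TEnc α] {m : α → List Bool} {x : α → List Bool} (hm : Poly m)
    (hx : Poly x) : Poly (fun a => pad (m a).length (x a)) := by
  have h1 : UPoly (fun a => (m a).length - (x a).length - 1) := by
    refine UPoly.of_le (n := fun a => (m a).length) (by fun_prop) (UPoly.length hm) fun a => ?_
    omega
  have h2 : Poly (fun a => List.replicate ((m a).length - (x a).length - 1) false) :=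
    (NPC.Poly.map (F := fun _ _ => false) h1 (NPC.Poly.const false)).congr fun a => by simp
  unfold pad
  fun_prop

/-- the relation for `h` -/
theorem exists_rel_h {h t : ℕ → ℕ} (hh : NComp h t) :
    ∃ (H : (List Bool × List Bool) × List Bool → Bool) (p : Polynomial ℕ), Poly H ∧
      (∀ x m c, H ((x, m), c) = true → m.length = h x.length) ∧
      ∀ x m : List Bool, m.length = h x.length → ∃ c : List Bool,
        sz c ≤ p.eval (t x.length) ∧ H ((x, m), c) = true := by
  obtain ⟨V, p, hV, hs, hc⟩ := hh
  have hV' : Poly V := poly_of_polyTime hV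
  refine ⟨fun y => decide (V (pairBits (pairBits (y.1.1.map fun _ => true)
    (y.1.2.map fun _ => true)) y.2) = [true]), 4 * p + 1, ?_, fun x m c h => ?_,
    fun x m hm => ?_⟩
  · exact Poly.dec_eq (hV'.comp (by fun_prop)) (by fun_prop)
  · simp only [List.map_const', decide_eq_true_eq] at h
    exact hs _ _ _ h
  · obtain ⟨c, h1, h2⟩ := hc x.length
    refine ⟨c, ?_, ?_⟩
    · have h3 := sz_listBool_le c
      simp only [Polynomial.eval_add, Polynomial.eval_mul, Polynomial.eval_ofNat,
        Polynomial.eval_one]
      omega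
    · simp only [List.map_const', hm, decide_eq_true_eq]
      exact h2

/-- the known lifting, for functions of the form `K h` -/
theorem lift {T h : ℕ → ℕ} {K : ℕ} (hT : ∃ P : Polynomial ℕ, ∀ m, m ≤ P.eval (T m))
    (hK : ∀ n, h n ≠ 0 → n + 1 ≤ K * h n) (h0 : ∀ n, h n = 0 → n = 0) (hK0 : K ≠ 0)
    (hh : NComp h fun n => T (K * h n)) (hcl : Closed T) : Closed fun n => T (K * h n) := by
  intro L hL
  obtain ⟨R, p, hR, hs, hc⟩ := exists_rel hL
  obtain ⟨H, q, hH, hHs, hHc⟩ := exists_rel_h hh
  obtain ⟨P, hP⟩ := hT
  have hlen : ∀ x : List Bool, (pad (K * h x.length) x).length = K * h x.length := by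
    intro x
    refine length_pad ?_
    by_cases h1 : h x.length = 0
    · left; rw [h1, mul_zero]
    · right; exact hK _ h1
  have hpos : ∀ x : List Bool, K * h x.length = 0 → x = [] := by
    intro x hx
    rcases Nat.mul_eq_zero.1 hx with h1 | h1
    · exact absurd h1 hK0
    · exact List.eq_nil_of_length_eq_zero (h0 _ h1)
  let L' : Set (List Bool) := {w | ∃ x ∈ L, w = pad (K * h x.length) x}
  have hmem : ∀ x : List Bool, pad (K * h x.length) x ∈ L' ↔ x ∈ L := by
    intro x
    constructor
    · rintro ⟨y, hy, he⟩
      have h1 := congrArg List.length he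
      rw [hlen, hlen] at h1
      by_cases h2 : K * h x.length = 0
      · rw [hpos x h2]
        rw [h2] at h1
        rwa [← hpos y h1.symm]
      · have h3 : x = y := by
          rw [← h1] at he
          refine pad_inj h2 (hK _ fun h4 => h2 (by rw [h4, mul_zero])) ?_ he
          rw [h1]
          exact hK _ fun h4 => h2 (by rw [h1, h4, mul_zero])
        rwa [h3]
    · intro hx; exact ⟨x, hx, rfl⟩
  have hL' : L' ∈ NT T := by
    refine mem_NT_typed (δ := (List Bool × List Bool) × List Bool × List Bool)
      (R := fun y => (decide (K * y.2.1.2.length = y.1.length) &&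
        decide (y.1 = pad y.1.length y.2.1.1)) && (H (y.2.1, y.2.2.1) && R (y.2.1.1, y.2.2.2)))
      ?_ (8 * P + q + p + 5) ?_ ?_
    · have e1 := poly_pad (α := List Bool × ((List Bool × List Bool) × List Bool × List Bool))
        (m := fun y => y.1) (x := fun y => y.2.1.1) (by fun_prop) (by fun_prop)
      have e2 := hH.comp (f := fun y : List Bool × ((List Bool × List Bool) × List Bool ×
        List Bool) => (y.2.1, y.2.2.1)) (by fun_prop)
      have e3 := hR.comp (f := fun y : List Bool × ((List Bool × List Bool) × List Bool ×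
        List Bool) => (y.2.1.1, y.2.2.2)) (by fun_prop)
      fun_prop
    · rintro w ⟨⟨x, m⟩, c, d⟩ hw
      simp only [Bool.and_eq_true, decide_eq_true_eq] at hw
      obtain ⟨⟨h1, h2⟩, h3, h4⟩ := hw
      refine ⟨x, hs _ _ h4, ?_⟩
      rw [← hHs _ _ _ h3, h1]
      exact h2
    · rintro w ⟨x, hx, rfl⟩
      obtain ⟨c, hc1, hc2⟩ := hHc x (List.replicate (h x.length) true) (by simp)
      obtain ⟨d, hd1, hd2⟩ := hc x hx
      refine ⟨((x, List.replicate (h x.length) true), c, d), ?_, ?_⟩
      · rw [hlen]
        have e1 := sz_listBool_le x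
        have e2 := sz_listBool_le (List.replicate (h x.length) true)
        have e3 := hP (K * h x.length)
        rw [List.length_replicate] at e2
        have e4 : h x.length ≤ K * h x.length := Nat.le_mul_of_pos_left _ (by omega)
        have e5 : x.length ≤ K * h x.length := by
          by_cases e6 : h x.length = 0
          · rw [h0 _ e6]; exact Nat.zero_le _
          · have := hK _ e6; omega
        simp only [sz_pair, Polynomial.eval_add, Polynomial.eval_mul, Polynomial.eval_ofNat]
        omega
      · simp only [List.length_replicate, hlen, Bool.and_eq_true, decide_eq_true_eq]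
        exact ⟨⟨trivial, trivial⟩, hc2, hd2⟩
  obtain ⟨N, r, hN, hNs, hNc⟩ := exists_rel (hcl _ hL')
  refine mem_NT_typed (δ := (List Bool × List Bool) × List Bool × List Bool)
    (R := fun y => (decide (K * y.2.1.2.length = y.2.1.1.length) &&
      decide (y.2.1.1 = pad y.2.1.1.length y.1)) &&
        (H ((y.1, y.2.1.2), y.2.2.1) && N (y.2.1.1, y.2.2.2)))
    ?_ (8 * P + q + r + 5) ?_ ?_
  · have e1 := poly_pad (α := List Bool × ((List Bool × List Bool) × List Bool × List Bool))
      (m := fun y => y.2.1.1) (x := fun y => y.1) (by fun_prop) (by fun_prop)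
    have e2 := hH.comp (f := fun y : List Bool × ((List Bool × List Bool) × List Bool ×
      List Bool) => ((y.1, y.2.1.2), y.2.2.1)) (by fun_prop)
    have e3 := hN.comp (f := fun y : List Bool × ((List Bool × List Bool) × List Bool ×
      List Bool) => (y.2.1.1, y.2.2.2)) (by fun_prop)
    fun_prop
  · rintro x ⟨⟨w, m⟩, c, d⟩ hw hx
    simp only [Bool.and_eq_true, decide_eq_true_eq] at hw
    obtain ⟨⟨h1, h2⟩, h3, h4⟩ := hw
    have h5 := hNs _ _ h4
    have h6 : w = pad (K * h x.length) x := by
      rw [← hHs _ _ _ h3, h1]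
      exact h2
    rw [h6] at h5
    exact h5 ((hmem x).2 hx)
  · intro x hx
    obtain ⟨c, hc1, hc2⟩ := hHc x (List.replicate (h x.length) true) (by simp)
    obtain ⟨d, hd1, hd2⟩ := hNc (pad (K * h x.length) x) (fun h1 => hx ((hmem x).1 h1))
    refine ⟨((pad (K * h x.length) x, List.replicate (h x.length) true), c, d), ?_, ?_⟩
    · have e1 := sz_listBool_le (pad (K * h x.length) x)
      have e2 := sz_listBool_le (List.replicate (h x.length) true)
      have e3 := hP (K * h x.length)
      rw [List.length_replicate] at e2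
      rw [hlen] at e1 hd1
      have e4 : h x.length ≤ K * h x.length := Nat.le_mul_of_pos_left _ (by omega)
      simp only [sz_pair, Polynomial.eval_add, Polynomial.eval_mul, Polynomial.eval_ofNat]
      omega
    · simp only [List.length_replicate, hlen, Bool.and_eq_true, decide_eq_true_eq]
      exact ⟨⟨trivial, trivial⟩, hc2, hd2⟩

/-! ### Iterated halving -/

theorem exp_halve {T : ℕ → ℕ} (hT : Exp T) : Exp fun n => T ((n + 1) / 2) := by
  obtain ⟨P, hP⟩ := hT
  refine ⟨P ^ 2, fun n => ?_⟩
  rw [Polynomial.eval_pow]
  calc 2 ^ n ≤ 2 ^ ((n + 1) / 2 * 2) := Nat.pow_le_pow_right (by norm_num) (by omega)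
    _ = (2 ^ ((n + 1) / 2)) ^ 2 := by rw [pow_mul]
    _ ≤ _ := Nat.pow_le_pow_left (hP _) 2

theorem iter_halve (k : ℕ) : ∀ {T : ℕ → ℕ}, Exp T → Closed T →
    Exp (fun n => T ((fun m => (m + 1) / 2)^[k] n)) ∧
      Closed (fun n => T ((fun m => (m + 1) / 2)^[k] n)) := by
  induction k with
  | zero => intro T h1 h2; exact ⟨h1, h2⟩
  | succ k ih =>
    intro T h1 h2
    have h3 := ih (exp_halve h1) (halve h1 h2)
    simp only [Function.iterate_succ', Function.comp_apply]
    exact h3

theorem iter_mul (k a : ℕ) : (fun m => (m + 1) / 2)^[k] (2 ^ k * a) = a := by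
  induction k with
  | zero => simp
  | succ k ih =>
    have h1 : 2 ^ (k + 1) * a = 2 * (2 ^ k * a) := by ring
    have h2 : (2 ^ (k + 1) * a + 1) / 2 = 2 ^ k * a := by omega
    rw [Function.iterate_succ_apply]
    simp only [h2]
    exact ih

theorem Exp.le {T : ℕ → ℕ} (hT : Exp T) : ∃ P : Polynomial ℕ, ∀ m, m ≤ P.eval (T m) := by
  obtain ⟨P, hP⟩ := hT
  exact ⟨P, fun m => (Nat.lt_two_pow_self).le.trans (hP m)⟩

/-- Closure for `T` implies closure for `T ∘ h` if `n ≤ s h(n)`. -/
theorem main {T : ℕ → ℕ} (hT : Exp T) {h : ℕ → ℕ} {s : ℕ} (hs : ∀ n, n ≤ s * h n)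
    (hh : NComp h fun n => T (h n)) (hcl : Closed T) : Closed fun n => T (h n) := by
  obtain ⟨k, hk⟩ : ∃ k, 2 * s + 1 ≤ 2 ^ k := ⟨2 * s + 1, (Nat.lt_two_pow_self).le⟩
  obtain ⟨h1, h2⟩ := iter_halve k hT hcl
  have e : (fun n => T ((fun m => (m + 1) / 2)^[k] (2 ^ k * h n))) = fun n => T (h n) := by
    funext n
    rw [iter_mul]
  have h3 := lift (T := fun n => T ((fun m => (m + 1) / 2)^[k] n)) (h := h) (K := 2 ^ k)
    h1.le (fun n hn => ?_) (fun n hn => ?_) (by positivity) (by rw [e]; exact hh) h2
  · rwa [e] at h3
  · have h4 := hs n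
    have h5 : (2 * s + 1) * h n ≤ 2 ^ k * h n := Nat.mul_le_mul_right _ hk
    have h6 : (2 * s + 1) * h n = s * h n + s * h n + h n := by ring
    omega
  · have h4 := hs n
    rw [hn, mul_zero] at h4
    omega

/-! ### Linear rescaling -/

theorem ncomp_of_poly {h t : ℕ → ℕ} (hp : Poly (fun p : List Bool × List Bool =>
    decide (p.2.length = h p.1.length))) : NComp h t := by
  refine ⟨fun y => [decide ((unpair (unpair y).1).2.length = h (unpair (unpair y).1).1.length)],
    0, ?_, fun n m c hv => ?_, fun n => ⟨[], by simp, ?_⟩⟩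
  · exact polyTime_of_poly (hp.comp (f := fun y : List Bool =>
      ((unpair (unpair y).1).1, (unpair (unpair y).1).2)) (by fun_prop))
  · simpa [unpair_pairBits] using hv
  · simp [unpair_pairBits]

theorem rescale {T : ℕ → ℕ} (hT : Exp T) {s : ℕ} (hs : 1 ≤ s) :
    Closed T ↔ Closed fun n => T ((n + (s - 1)) / s) := by
  have hle : ∀ n, n ≤ s * ((n + (s - 1)) / s) := by
    intro n
    have h1 := Nat.div_add_mod (n + (s - 1)) s
    have h2 := Nat.mod_lt (n + (s - 1)) hs
    omega
  constructor
  · refine main hT hle (ncomp_of_poly ?_)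
    fun_prop
  · intro h
    have h1 : Exp fun n => T ((n + (s - 1)) / s) := by
      obtain ⟨P, hP⟩ := hT
      refine ⟨P ^ s, fun n => ?_⟩
      rw [Polynomial.eval_pow]
      calc 2 ^ n ≤ 2 ^ ((n + (s - 1)) / s * s) := Nat.pow_le_pow_right (by norm_num) (by
            rw [mul_comm]; exact hle n)
        _ = (2 ^ ((n + (s - 1)) / s)) ^ s := by rw [pow_mul]
        _ ≤ _ := Nat.pow_le_pow_left (hP _) s
    have h2 := main h1 (h := fun n => s * n) (s := 1) (fun n => by
      rw [one_mul]; exact Nat.le_mul_of_pos_left _ hs) (ncomp_of_poly (by fun_prop)) h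
    have e : (fun n => T ((s * n + (s - 1)) / s)) = T := by
      funext n
      congr 1
      rw [add_comm, Nat.add_mul_div_left _ _ hs, Nat.div_eq_of_lt (by omega), zero_add]
    rwa [e] at h2

end Pool.Agent.TH755.CL
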